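import Pool.Agent.Results.MP_8401d0_pr.OneFinalMinimal
import Pool.Agent.Y873.OF.Fin

/-
Random accessible automata with exactly one final state: the probability of being minimal, with a
power rate, for every number of states.

`n + 1` is the number of states; the states are `Fin (n + 1)`, the initial state is `0`.
Complete deterministic automata are Mathlib's `DFA`.
-/

set_option autoImplicit false

open Filter Topology

namespace Pool.Agent.Results.MP_8401d0_pr.PowerRate

/-- The set of accessible complete deterministic automata over the alphabet `A` with state set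
`Fin (n + 1)`, initial state `0` and exactly one final state. -/
def OneFinal (A : Type) (n : ℕ) : Set (DFA A (Fin (n + 1))) :=
  {M | M.start = 0 ∧ (∀ q, ∃ w : List A, M.evalFrom M.start w = q) ∧ ∃ f, M.accept = {f}}

/-- No two distinct states are equivalent (accept the same words). -/
def IsMinimal {A : Type} {n : ℕ} (M : DFA A (Fin (n + 1))) : Prop :=
  ∀ p q, M.acceptsFrom p = M.acceptsFrom q → p = q

/-- The probability that a uniformly random element of `OneFinal A n` is minimal. -/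
noncomputable def prob (A : Type) (n : ℕ) : ℝ :=
  (Set.ncard {M | M ∈ OneFinal A n ∧ IsMinimal M} : ℝ) / (Set.ncard (OneFinal A n) : ℝ)

theorem prob_eq (A : Type) (n : ℕ) :
    Pool.Agent.Results.MP_8401d0_pr.OneFinalMinimal.prob A n = prob A n := rfl

open Pool.Agent.Results.MP_8401d0_pr.OneFinalMinimal in
theorem lower (A : Type) [Finite A] (hA : 2 ≤ Nat.card A) : ∃ C : ℝ, 0 < C ∧ ∀ n : ℕ,
    1 - (1 / (2 * ((n:ℝ)+1)^(Nat.card A-2)) + C * ((n:ℝ)+1)^(-(1 / (2 * (Nat.card A:ℝ) + 3)))) ≤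
      Pool.Agent.Results.MP_8401d0_pr.OneFinalMinimal.prob A n := by
  have e := Finite.equivFin A
  obtain ⟨C, hC, h⟩ := Pool.Agent.Y873.OF.nonmin_power (Nat.card A) hA
  refine ⟨C, hC, fun n => ?_⟩
  have hn := h n
  have hsplit : Set.ncard {x : (Fin (n + 1) → Fin (Nat.card A) → Fin (n + 1)) × Fin (n + 1) |
        RA.Acc x.1 0}
      = Set.ncard {x : (Fin (n + 1) → Fin (Nat.card A) → Fin (n + 1)) × Fin (n + 1) |
          RA.Acc x.1 0 ∧ ∀ p q, RA.LE x.1 x.2 p q → p = q}
        + Set.ncard {x : (Fin (n + 1) → Fin (Nat.card A) → Fin (n + 1)) × Fin (n + 1) |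
          RA.Acc x.1 0 ∧ ¬ ∀ p q, RA.LE x.1 x.2 p q → p = q} := by
    rw [← Set.ncard_union_eq _ (Set.toFinite _) (Set.toFinite _)]
    · congr 1
      ext x
      simp only [Set.mem_ofPred_eq, Set.mem_union]
      tauto
    · rw [Set.disjoint_left]
      rintro x ⟨_, h1⟩ ⟨_, h2⟩
      exact h2 h1
  have hpos : (0:ℝ) < (Set.ncard {x : (Fin (n + 1) → Fin (Nat.card A) → Fin (n + 1)) × Fin (n + 1) |
        RA.Acc x.1 0} : ℝ) := by
    have h1 : Set.ncard {x : (Fin (n+1) → Fin (Nat.card A) → Fin (n+1)) × Fin (n+1) | RA.Acc x.1 0}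
        = RA.accN n (Nat.card A) * (n+1) := by
      have := RA.ncard_prod_first (α := Fin (n+1) → Fin (Nat.card A) → Fin (n+1)) (β := Fin (n+1))
        {T | RA.Acc T 0}
      simpa [RA.accN] using this
    rw [h1]
    have := RA.accN_pos n (Nat.card A) (by omega)
    positivity
  unfold Pool.Agent.Results.MP_8401d0_pr.OneFinalMinimal.prob
  rw [ncard_min e, ncard_all e, le_div_iff₀ hpos]
  have hsplit' : (Set.ncard {x : (Fin (n + 1) → Fin (Nat.card A) → Fin (n + 1)) × Fin (n + 1) |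
        RA.Acc x.1 0} : ℝ)
      = (Set.ncard {x : (Fin (n + 1) → Fin (Nat.card A) → Fin (n + 1)) × Fin (n + 1) |
          RA.Acc x.1 0 ∧ ∀ p q, RA.LE x.1 x.2 p q → p = q} : ℝ)
        + (Set.ncard {x : (Fin (n + 1) → Fin (Nat.card A) → Fin (n + 1)) × Fin (n + 1) |
          RA.Acc x.1 0 ∧ ¬ ∀ p q, RA.LE x.1 x.2 p q → p = q} : ℝ) := by
    exact_mod_cast hsplit
  linarith

/-- For every finite alphabet `A` with `k ≥ 2` letters let `prob A n` be the probability that a uniformly random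
accessible automaton with `n + 1` states and exactly one final state is minimal. Then there is a constant `C`
such that `prob A n ≥ 1 - 1 / (2 (n + 1)^(k - 2)) - C (n + 1)^(-1/(2 k + 3))` for all `n`: at least
`1/2 - C (n + 1)^(-1/7)` if `k = 2`, and the probability of not being minimal is at most
`(C + 1/2) (n + 1)^(-1/(2 k + 3))` if `k ≥ 3`. In particular the lower limit is at least `1/2`, and the probability
tends to one if `k ≥ 3`. -/
theorem result (A : Type) [Finite A] (hA : 2 ≤ Nat.card A) :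
    (∃ C : ℝ, 0 < C ∧
      (∀ n : ℕ, 1 - 1 / (2 * ((n:ℝ)+1)^(Nat.card A-2)) -
        C * ((n:ℝ)+1)^(-(1 / (2 * (Nat.card A:ℝ) + 3))) ≤ prob A n) ∧
      (Nat.card A = 2 → ∀ n : ℕ, 1 / 2 - C * ((n:ℝ)+1)^(-(1 / 7) : ℝ) ≤ prob A n) ∧
      (3 ≤ Nat.card A → ∀ n : ℕ,
        1 - prob A n ≤ (C + 1 / 2) * ((n:ℝ)+1)^(-(1 / (2 * (Nat.card A:ℝ) + 3))))) ∧
    1 / 2 ≤ liminf (fun n => prob A n) atTop ∧
    (3 ≤ Nat.card A → Tendsto (fun n => prob A n) atTop (𝓝 1)) := by
  obtain ⟨C, hC, h⟩ := lower A hA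
  simp only [prob_eq] at h
  obtain ⟨-, h2, h3⟩ := Pool.Agent.Results.MP_8401d0_pr.OneFinalMinimal.result A hA
  simp only [prob_eq] at h2 h3
  refine ⟨⟨C, hC, fun n => by have := h n; linarith, fun hk n => ?_, fun hk n => ?_⟩, h2, h3⟩
  · have := h n
    rw [hk] at this
    norm_num at this ⊢
    linarith
  · have h1 := h n
    have hn : (1:ℝ) ≤ (n:ℝ) + 1 := by
      have : (0:ℝ) ≤ n := Nat.cast_nonneg n
      linarith
    have hn0 : (0:ℝ) < (n:ℝ) + 1 := by linarith
    have h4 : (n:ℝ) + 1 ≤ ((n:ℝ)+1)^(Nat.card A-2) := le_self_pow₀ hn (by omega)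
    have h5 : 1 / (2 * ((n:ℝ)+1)^(Nat.card A-2)) ≤ 1 / 2 * (1 / ((n:ℝ)+1)) := by
      rw [one_div_mul_one_div]
      exact one_div_le_one_div_of_le (by positivity) (by linarith)
    have ha1 : 1 / (2 * (Nat.card A:ℝ) + 3) ≤ 1 := by
      rw [div_le_one (by positivity)]
      have : (0:ℝ) ≤ (Nat.card A:ℝ) := Nat.cast_nonneg _
      linarith
    have h6 : 1 / ((n:ℝ)+1) ≤ ((n:ℝ)+1)^(-(1 / (2 * (Nat.card A:ℝ) + 3))) := by
      rw [one_div ((n:ℝ)+1), ← Real.rpow_neg_one]
      exact Real.rpow_le_rpow_of_exponent_le hn (by linarith)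
    linarith

end Pool.Agent.Results.MP_8401d0_pr.PowerRate
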